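import Pool.Agent.V5helper54.RI.Exp

/-!
# Primes in intervals of length `(log n) ^ a`: averages along translates, all lengths at once

Q1 asks whether `R_a(n)`, the number of primes in `(n, n + (log n) ^ a]` divided by its expected value, is close to `1`
for all large `n` if `a` is large. We prove that for ANY weight `g` of density at least `1 / (log x) ^ A` on `[1, x]` and
almost all translations `t` (in every window of length at least `x ^ (1/3) (log x) ^ D`) the mean value of `R_h(s + t)`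
along `g` is close to `1` for ALL lengths `h` between `K log log x` and a tenth of the window at once; in particular the
mean value of `R_a(s + t)` is close to `1` for all `a ≥ a₀` with `(log x) ^ a ≤ x ^ δ` at once. The exceptional set of
translations does not depend on the length.
-/

set_option autoImplicit false

namespace Pool.Agent.Results.MP_b09185_nt.AllLengthsAtOnce

open Finset

/-- the problem's `R_h` at the integer `n`: `(log n / h(n)) (π(n + h(n)) - π(n))` -/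
noncomputable def ratio (h : ℕ → ℝ) (n : ℕ) : ℝ :=
  Real.log n / h n * ((Nat.primeCounting ⌊(n : ℝ) + h n⌋₊ : ℝ) - Nat.primeCounting n)

/-- `g` is a weight on `[1, x]` with values in `[0, (log x) ^ A]` and sum at least `x / (log x) ^ A` -/
def Weight (A x : ℕ) (g : ℕ → ℝ) : Prop :=
  (∀ s ∈ Icc 1 x, 0 ≤ g s ∧ g s ≤ Real.log x ^ A) ∧ (x : ℝ) ≤ (∑ s ∈ Icc 1 x, g s) * Real.log x ^ A

/-- `R_h(s + t)` has mean value `1` along the weight `g`, with error at most `ε` -/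
def Near (ε : ℝ) (x : ℕ) (g h : ℕ → ℝ) (t : ℕ) : Prop :=
  |∑ s ∈ Icc 1 x, g s * ratio h (s + t) - ∑ s ∈ Icc 1 x, g s| ≤ ε * ∑ s ∈ Icc 1 x, g s

open Classical in
theorem result (A : ℕ) : ∃ D : ℕ, ∀ ε : ℝ, 0 < ε →
    (∃ K : ℕ, ∃ δ : ℝ, 0 < δ ∧ ∃ x0 : ℕ, ∀ x : ℕ, x0 ≤ x → ∀ g : ℕ → ℝ, Weight A x g →
      ∀ w H : ℕ, w + H ≤ x → (x : ℝ) ^ (1 / 3 : ℝ) * Real.log x ^ D ≤ H →
      ∃ E ⊆ Ioc w (w + H), (E.card : ℝ) ≤ ε * H ∧ ∀ t ∈ Ioc w (w + H), t ∉ E → ∀ u : ℝ,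
        K * Real.log (Real.log x) ≤ u → 10 * u ≤ H → 2 * u * Real.log x ^ (2 * A + 4) ≤ x →
        ∀ h : ℕ → ℝ, (∀ n, 0 ≤ h n) →
          (∀ n : ℕ, n ≤ 2 * x → (x : ℝ) ≤ n * Real.log x ^ (2 * A + 4) → |h n - u| ≤ δ * u) → Near ε x g h t) ∧
    (∃ δ : ℝ, 0 < δ ∧ ∀ a0 : ℝ, 0 < a0 → ∃ x0 : ℕ, ∀ x : ℕ, x0 ≤ x → ∀ g : ℕ → ℝ, Weight A x g →
      ∀ w H : ℕ, w + H ≤ x → (x : ℝ) ^ (1 / 3 : ℝ) * Real.log x ^ D ≤ H →
      ∃ E ⊆ Ioc w (w + H), (E.card : ℝ) ≤ ε * H ∧ ∀ t ∈ Ioc w (w + H), t ∉ E →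
        ∀ a : ℝ, a0 ≤ a → Real.log x ^ a ≤ (x : ℝ) ^ δ → Near ε x g (fun n => Real.log n ^ a) t) := by
  obtain ⟨D, hD⟩ := Pool.Agent.V5helper54.RI.all_lengths A
  refine ⟨D, fun ε hε => ⟨?_, ?_⟩⟩
  · obtain ⟨K, δ, hδ, x0, hx0⟩ := hD ε hε
    refine ⟨K, δ, hδ, x0, fun x hx g hg w H hwH hH => ⟨_, filter_subset _ _, hx0 x hx g hg.1 hg.2 w H hwH hH, ?_⟩⟩
    intro t ht htE u hu1 hu2 hu3 h hh hhu
    by_contra hcon
    apply htE
    rw [mem_filter]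
    exact ⟨ht, u, hu1, hu2, hu3, h, hh, hhu, not_le.1 hcon⟩
  · obtain ⟨δ, hδ, hδ'⟩ := Pool.Agent.V5helper54.RI.all_exponents A D ε (hD ε hε)
    refine ⟨δ, hδ, fun a0 ha0 => ?_⟩
    obtain ⟨x0, hx0⟩ := hδ' a0 ha0
    refine ⟨x0, fun x hx g hg w H hwH hH => ⟨_, filter_subset _ _, hx0 x hx g hg.1 hg.2 w H hwH hH, ?_⟩⟩
    intro t ht htE a ha1 ha2
    by_contra hcon
    apply htE
    rw [mem_filter]
    exact ⟨ht, a, ha1, ha2, not_le.1 hcon⟩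

end Pool.Agent.Results.MP_b09185_nt.AllLengthsAtOnce
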