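import Pool.Agent.V5helper54.RI.Main

/-!
# Primes in intervals of length `(log n) ^ a`: averages along translates of arbitrary weights

Q1 asks whether `R_a(n)`, the number of primes in `(n, n + (log n) ^ a]` divided by its expected value, is close to `1`
for all large `n` if `a` is large. We prove that along almost all translates of ANY weight of density at least
`1 / (log x) ^ A` all joint moments of `R_{a_1}, ..., R_{a_k}`, `a_i > 0`, are asymptotically `1`.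
-/

set_option autoImplicit false

namespace Pool.Agent.Results.MP_b09185_nt.AveragesOverTranslates

open Finset Filter

/-- the problem's `R_h` at the integer `n`: `(log n / h(n)) (π(n + h(n)) - π(n))` -/
noncomputable def ratio (h : ℕ → ℝ) (n : ℕ) : ℝ :=
  Real.log n / h n * ((Nat.primeCounting ⌊(n : ℝ) + h n⌋₊ : ℝ) - Nat.primeCounting n)

/-- lengths `h(n) ≥ 0` with `h(n) = o(n)`, `h(n) / log log n → ∞`, and, for every `C`, `h(m) / h(n) → 1` as `n → ∞`,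
uniformly for `n / (log n) ^ C ≤ m ≤ n` -/
def Regular (h : ℕ → ℝ) : Prop :=
  (∀ n, 0 ≤ h n) ∧ (∀ K : ℕ, ∀ᶠ n : ℕ in atTop, K * h n ≤ n) ∧
  (∀ K : ℕ, ∀ᶠ n : ℕ in atTop, K * Real.log (Real.log n) ≤ h n) ∧
  (∀ C : ℕ, ∀ δ : ℝ, 0 < δ → ∀ᶠ n : ℕ in atTop, ∀ m ≤ n, (n : ℝ) ≤ m * Real.log n ^ C → |h m - h n| ≤ δ * h n)

theorem result :
    (∀ a : ℝ, 0 < a → Regular (fun n => Real.log n ^ a)) ∧
    ∀ k A : ℕ, ∃ D : ℕ, ∀ h : Fin k → ℕ → ℝ, (∀ i, Regular (h i)) → ∀ ε : ℝ, 0 < ε → ∃ x0 : ℕ, ∀ x : ℕ, x0 ≤ x →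
      ∀ g : ℕ → ℝ, (∀ s ∈ Icc 1 x, 0 ≤ g s ∧ g s ≤ Real.log x ^ A) →
      (x : ℝ) ≤ (∑ s ∈ Icc 1 x, g s) * Real.log x ^ A →
      ∀ w H : Fin k → ℕ, (∀ i, w i + H i ≤ x) → (∀ i, (x : ℝ) ^ (1 / 3 : ℝ) * Real.log x ^ D ≤ H i) →
      ∑ t ∈ Fintype.piFinset (fun i => Ioc (w i) (w i + H i)),
        |∑ s ∈ Icc 1 x, g s * ∏ i, ratio (h i) (s + t i) - ∑ s ∈ Icc 1 x, g s| ≤
        ε * (∑ s ∈ Icc 1 x, g s) * ∏ i, (H i : ℝ) := by
  refine ⟨fun a ha => Pool.Agent.V5helper54.RI.regular_log_pow a ha, fun k A => ?_⟩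
  obtain ⟨D, hD⟩ := Pool.Agent.V5helper54.RI.many_step k A (A + 1)
  refine ⟨D, fun h hreg ε hε => ?_⟩
  obtain ⟨x1, hx1⟩ := hD h hreg (ε / 2) (by positivity)
  have hlim : Tendsto (fun N : ℕ => Real.log (N : ℝ)) atTop atTop :=
    Real.tendsto_log_atTop.comp (tendsto_natCast_atTop_atTop (R := ℝ))
  obtain ⟨x2, hx2⟩ := eventually_atTop.1 (hlim.eventually_ge_atTop (max 1 (2 / ε)))
  refine ⟨max x1 x2, fun x hx g hg hgx w H hwH hH => ?_⟩
  have hL := hx2 x (le_trans (le_max_right _ _) hx)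
  have key := hx1 x (le_trans (le_max_left _ _) hx) g hg w H hwH hH
  have hL1 : 1 ≤ Real.log (x : ℝ) := (le_max_left _ _).trans hL
  have hL2 : 2 / ε ≤ Real.log (x : ℝ) := (le_max_right _ _).trans hL
  have hL0 : 0 < Real.log (x : ℝ) := by linarith
  refine key.trans ?_
  apply mul_le_mul_of_nonneg_right _ (prod_nonneg fun _ _ => Nat.cast_nonneg _)
  have hG : 0 ≤ ∑ s ∈ Icc 1 x, g s := sum_nonneg fun s hs => (hg s hs).1
  have h1 : (x : ℝ) / Real.log x ^ (A + 1) ≤ ε / 2 * ∑ s ∈ Icc 1 x, g s := by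
    rw [div_le_iff₀ (by positivity), pow_succ]
    have h2 : 1 ≤ ε / 2 * Real.log x := by
      rw [div_le_iff₀ hε] at hL2
      linarith
    calc (x : ℝ) ≤ (∑ s ∈ Icc 1 x, g s) * Real.log x ^ A := hgx
      _ = ((∑ s ∈ Icc 1 x, g s) * Real.log x ^ A) * 1 := (mul_one _).symm
      _ ≤ ((∑ s ∈ Icc 1 x, g s) * Real.log x ^ A) * (ε / 2 * Real.log x) :=
          mul_le_mul_of_nonneg_left h2 (by positivity)
      _ = _ := by ring
  linarith

end Pool.Agent.Results.MP_b09185_nt.AveragesOverTranslates
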