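import Pool.Agent.V5helper33.PR.Runs

set_option autoImplicit false

/-!
# One good run of gaps after each prime suffices; irregularities below one scale only

`p_0 = 2, p_1 = 3, …` are the primes, `R_a(x) = R_h(x)` with `h = (log x) ^ a`.

1. The problem Q1 (`L_a → 1` and `U_a → 1`) is EQUIVALENT to: for every `ε > 0` there is `a` such
   that for every large `n` SOME run of `1 ≤ j ≤ (log p_n) ^ a` consecutive gaps after `p_n` has mean
   at most `(1 + ε) log p_n`, and SOME run of `1 ≤ k ≤ (log p_n) ^ a` gaps after `p_n` has mean at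
   least `(1 - ε) log p_n`. The same holds for each half: `L_a → 1` is equivalent to the first,
   `U_a → 1` to the second condition. So one need not look at all real `x` and at the intervals of
   length `(log x) ^ a`: it is enough to have, for every prime, one good length up to `(log p_n) ^ a`.
2. For each fixed `a` both conditions fail for some `ε > 0`: so `a` has to depend on `ε`.
3. Irregularities below the scale `(log x) ^ a` that do not come from the scale `(log x) ^ b`, for all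
   `0 < a < b`: for every `K ≥ 0` there is `δ > 0` such that for at least `X ^ (1 - ε)` integers
   `x ∈ (X, 3 X)` and for ALL `0 < u ≤ (log x) ^ a`
   `(log x / u) #(x, x + u] + δ ≤ 1 + K (R_b(x) - 1)`;
   and, for `0 ≤ K ≤ 1`, for at least `X ^ (1 - ε)` primes `q ∈ (X, 3 X)` and ALL
   `0 < u ≤ (log q) ^ a`, `1 + K (R_b(q) - 1) + δ ≤ (log q / u) #[q, q + u)`.
   With `K = 1`: all the windows up to `(log x) ^ a` have a density of primes which is by `δ`
   smaller (larger) than in the window of length `(log x) ^ b` at the same place.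

Proof. 1. A long interval is tiled with good windows which begin at primes. 3. The
separation of scales in Maier's matrix (helper610 and team, used here with weights), a mean value
argument for the linear combination of the two scales, and tiling. helper33.
-/

namespace Pool.Agent.Results.MP_b09185_nt.OneGoodLength

open Filter

/-- the `i`-th prime, numbered from `p 0 = 2` -/
noncomputable def p (i : ℕ) : ℕ := Nat.nth Nat.Prime i

/-- `R_h(x) = (log x / h) (π(x + h) - π(x))` for `h = (log x) ^ a` -/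
noncomputable def ratio (a x : ℝ) : ℝ :=
  Real.log x / Real.log x ^ a *
    ((Nat.primeCounting ⌊x + Real.log x ^ a⌋₊ : ℝ) - (Nat.primeCounting ⌊x⌋₊ : ℝ))

/-- for all large `n` there is `1 ≤ j ≤ (log p_n) ^ a` such that the mean of the `j` gaps after `p_n`
is at most `(1 + ε) log p_n` -/
def ShortRun (ε a : ℝ) : Prop := ∀ᶠ n : ℕ in atTop, ∃ j : ℕ, 1 ≤ j ∧ (j : ℝ) ≤ Real.log (p n) ^ a ∧
  (p (n + j) : ℝ) - p n ≤ (1 + ε) * (j * Real.log (p n))

/-- for all large `n` there is `1 ≤ k ≤ (log p_n) ^ a` such that the mean of the `k` gaps after `p_n`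
is at least `(1 - ε) log p_n` -/
def LongRun (ε a : ℝ) : Prop := ∀ᶠ n : ℕ in atTop, ∃ k : ℕ, 1 ≤ k ∧ (k : ℝ) ≤ Real.log (p n) ^ a ∧
  (1 - ε) * (k * Real.log (p n)) ≤ (p (n + k) : ℝ) - p n

/-- the number of the integers `x` in `(X, 3 X)` with the property `Q` -/
noncomputable def number (X : ℝ) (Q : ℕ → Prop) : ℝ :=
  ({x : ℕ | X < x ∧ (x : ℝ) < 3 * X ∧ Q x}.ncard : ℝ)

/-- **Theorem.**
(1) Q1 holds if and only if for every `ε > 0` there is `a` with `ShortRun ε a` and `LongRun ε a`;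
(2) `R_a(x) ≥ 1 - ε` for all large `x`, for all `a ≥ a₀(ε)`, for every `ε > 0`, if and only if for every
    `ε > 0` there is `a` with `ShortRun ε a`;
(3) `R_a(x) ≤ 1 + ε` for all large `x`, for all `a ≥ a₀(ε)`, for every `ε > 0`, if and only if for every
    `ε > 0` there is `a` with `LongRun ε a`;
(4) for every `a` there is `ε > 0` such that neither `ShortRun ε a` nor `LongRun ε a` holds;
(5) for all `0 < a < b` and `K ≥ 0` there is `δ > 0` such that for every `ε > 0` and all large `X` at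
    least `X ^ (1 - ε)` integers `x ∈ (X, 3 X)` satisfy
    `(log x / u) #{primes in (x, x + u]} + δ ≤ 1 + K (R_b(x) - 1)` for all `0 < u ≤ (log x) ^ a`, and,
    if `K ≤ 1`, at least `X ^ (1 - ε)` primes `q ∈ (X, 3 X)` satisfy
    `1 + K (R_b(q) - 1) + δ ≤ (log q / u) #{primes in [q, q + u)}` for all `0 < u ≤ (log q) ^ a`. -/
theorem result :
    ((∀ ε : ℝ, 0 < ε → ∃ a₀ : ℝ, ∀ a : ℝ, a₀ ≤ a → ∀ᶠ x : ℝ in atTop, |ratio a x - 1| ≤ ε) ↔
      ∀ ε : ℝ, 0 < ε → ∃ a : ℝ, ShortRun ε a ∧ LongRun ε a) ∧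
    ((∀ ε : ℝ, 0 < ε → ∃ a₀ : ℝ, ∀ a : ℝ, a₀ ≤ a → ∀ᶠ x : ℝ in atTop, 1 - ε ≤ ratio a x) ↔
      ∀ ε : ℝ, 0 < ε → ∃ a : ℝ, ShortRun ε a) ∧
    ((∀ ε : ℝ, 0 < ε → ∃ a₀ : ℝ, ∀ a : ℝ, a₀ ≤ a → ∀ᶠ x : ℝ in atTop, ratio a x ≤ 1 + ε) ↔
      ∀ ε : ℝ, 0 < ε → ∃ a : ℝ, LongRun ε a) ∧
    (∀ a : ℝ, ∃ ε : ℝ, 0 < ε ∧ ¬ ShortRun ε a ∧ ¬ LongRun ε a) ∧
    (∀ a b K : ℝ, 0 < a → a < b → 0 ≤ K → ∃ δ : ℝ, 0 < δ ∧ ∀ ε : ℝ, 0 < ε →
      ∀ᶠ X : ℝ in atTop,
        X ^ (1 - ε) ≤ number X (fun x => ∀ u : ℝ, 0 < u → u ≤ Real.log x ^ a →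
          Real.log x / u * ({m : ℕ | m.Prime ∧ x < m ∧ (m : ℝ) ≤ x + u}.ncard : ℝ) + δ ≤
            1 + K * (ratio b x - 1)) ∧
        (K ≤ 1 → X ^ (1 - ε) ≤ number X (fun q => q.Prime ∧
          ∀ u : ℝ, 0 < u → u ≤ Real.log q ^ a →
            1 + K * (ratio b q - 1) + δ ≤
              Real.log q / u * ({m : ℕ | m.Prime ∧ q ≤ m ∧ (m : ℝ) < q + u}.ncard : ℝ)))) := by
  refine ⟨Pool.Agent.V5helper33.PR.both_iff, Pool.Agent.V5helper33.PR.lower_iff,
    Pool.Agent.V5helper33.PR.upper_iff, Pool.Agent.V5helper33.PR.not_both, ?_⟩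
  intro a b K ha hab hK
  obtain ⟨δ1, h1, H1⟩ := Pool.Agent.V5helper33.PR.cmp_low a b K ha hab hK
  by_cases hK1 : K ≤ 1
  · obtain ⟨δ2, h2, H2⟩ := Pool.Agent.V5helper33.PR.cmp_high a b K ha hab hK hK1
    refine ⟨min δ1 δ2, lt_min h1 h2, fun ε hε => ?_⟩
    filter_upwards [H1 ε hε, H2 ε hε] with X k1 k2
    have h3 : min δ1 δ2 ≤ δ1 := min_le_left _ _
    have h4 : min δ1 δ2 ≤ δ2 := min_le_right _ _
    refine ⟨?_, fun _ => ?_⟩
    · refine k1.trans (Pool.Agent.V5helper33.PR.numb_mono fun x hx u hu hu2 => ?_)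
      exact le_trans (add_le_add_right h3 _) (hx u hu hu2)
    · refine k2.trans (Pool.Agent.V5helper33.PR.numb_mono fun x hx => ⟨hx.1, fun u hu hu2 => ?_⟩)
      exact le_trans (add_le_add_right h4 _) (hx.2 u hu hu2)
  · refine ⟨δ1, h1, fun ε hε => ?_⟩
    filter_upwards [H1 ε hε] with X k1
    exact ⟨k1, fun h => absurd h hK1⟩

end Pool.Agent.Results.MP_b09185_nt.OneGoodLength
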