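import Pool.Agent.V5helper42.RS.K
import Pool.Agent.V5helper42.RS.S9
import Pool.Agent.V5helper42.RS.P6

set_option autoImplicit false

/-!
# The random sieve model of Banks, Ford and Tao: Q1 with rates, the exact values of `L_s` and `U_s`, and
# the primes are at least as irregular as the model

For every prime `p` choose a residue class `a_p` modulo `p`, uniformly and independently. The random
set `M = model a` consists of the `n` outside the class `a_p` modulo `p` for every prime `p` with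
`∏_{q ≤ p} (1 - 1/q)⁻¹ ≤ log n`; its density near `n` is `1 / log n`, and it has the local obstructions
(and so Maier's irregularities) of the primes. Let `R_A(H, x) = (log x / H) #(A ∩ (x, x + H])`, and
let `L_s(A)`, `U_s(A)` be the lower and the upper limit of `R_A((log x)^s, x)`. Almost surely:

1. for every `ε > 0` there is `s₀` such that for every real `s ≥ s₀`, for all large `x`,
   `|R_M((log x)^s, x) - 1| ≤ ε`: this is Q1 for the random set;
2. more precisely, with absolute constants `c > 0` and `s₁`: for every real `s ≥ s₁`, for all large `x`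
   and ALL lengths `(log x)^s ≤ H ≤ x / 2`, `|R_M(H, x) - 1| ≤ exp (-c s log s)`;
3. for every real `s > 0`, every interval `[X, 10 X]` with `X` large contains `x`, `x'` with
   `R_M((log x)^s, x) ≥ 1 + exp (-5 (s + 12) log (s + 12))` and
   `R_M((log x')^s, x') ≤ 1 - exp (-5 (s + 12) log (s + 12))`;
4. for every real `s > 2` the values of `U_s(M)` and `L_s(M)` are EXACTLY the extremal constants of the
   interval sieve, and the set `P` of the primes is at least as irregular as `M`:
   `L_s(P) ≤ L_s(M) = liminf_t s⁻(t)`, `U_s(P) ≥ U_s(M) = limsup_t s⁺(t)`,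
   where `s⁺(t)` (`s⁻(t)`) is the largest (smallest) number of `n ≤ t^s` which survive the removal of one
   class modulo every prime `p ≤ t`, divided by `t^s ∏_{p ≤ t} (1 - 1/p)`. Locally:
   `s⁻(log x) - ε ≤ R_M((log x)^s, x) ≤ s⁺(log x) + ε` for all large `x`, and in every `[X/3, 3X]` there
   are such values of `R_M` and such values of `R_P` beyond `s⁺(log X) - ε`, and below `s⁻(log X) + ε`.

So 4 for the primes is Maier's theorem with the constants which the model predicts.

Proof. 2: Brun-Hooley fundamental lemma with arbitrary classes for the primes up to `(log x)^4`,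
exponential moments for the random classes of the larger primes, Borel-Cantelli. 3: a window of
primes gives an exceptional pattern of classes for the primes up to `(log X) / 3` (Maier); the Chinese
remainder theorem moves it, for every choice of the random classes of these primes, into `[X, 3 X]`;
exponential moments in two phases for the other primes. 4: the same with the extremal pattern; the
primes between `(log x) / 3` and `(log x) (log log x)^3` change nothing (Brun-Titchmarsh), and beyond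
them the classes of the primes concentrate, with probability `1 - exp (-c (log x) (log log x)^2)`, as
soon as the length is a power of `log x` with exponent larger than 2. For the primes: Maier's matrix,
for the rows `n ≡ r` modulo the product of (almost) all primes up to `(log X) / 1000`, with the residue
`r` given by the extremal pattern (distribution of the primes in the columns: starting files of
helper378 and helper510). helper42.
-/

namespace Pool.Agent.Results.MP_b09185_nt.RandomSieveModel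

open MeasureTheory ProbabilityTheory Filter
open scoped ENNReal

/-- `∏_{q ≤ n} (1 - 1 / q)⁻¹` over the primes `q` -/
noncomputable def W (n : ℕ) : ℝ := ∏ q ∈ (Finset.Icc 1 n).filter Nat.Prime, (1 - (q : ℝ)⁻¹)⁻¹

/-- the set of the `n` outside the class of `a p` modulo `p` for every prime `p` with `W p ≤ log n` -/
def model (a : ℕ → ℕ) : Set ℕ := {n | ∀ p : ℕ, p.Prime → W p ≤ Real.log n → ¬ n ≡ a p [MOD p]}

/-- the number of elements of `A` in `(x, x + H]`, divided by `H / log x` -/
noncomputable def R (A : Set ℕ) (H x : ℝ) : ℝ :=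
  Real.log x / H * ({n : ℕ | n ∈ A ∧ x < n ∧ (n : ℝ) ≤ x + H}.ncard : ℝ)

/-- the possible numbers of integers `1 ≤ n ≤ L` outside one residue class for every prime `p ≤ t` -/
def counts (t L : ℝ) : Set ℕ :=
  {N | ∃ c : ℕ → ℕ, N = {n : ℕ | 1 ≤ n ∧ (n : ℝ) ≤ L ∧
    ∀ p : ℕ, p.Prime → (p : ℝ) ≤ t → ¬ n ≡ c p [MOD p]}.ncard}

/-- the largest of these numbers for `L = t ^ s`, divided by `t ^ s ∏_{p ≤ t} (1 - 1 / p)` -/
noncomputable def sPlus (s t : ℝ) : ℝ := W ⌊t⌋₊ / t ^ s * ((sSup (counts t (t ^ s)) : ℕ) : ℝ)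

/-- the smallest of these numbers for `L = t ^ s`, divided by `t ^ s ∏_{p ≤ t} (1 - 1 / p)` -/
noncomputable def sMinus (s t : ℝ) : ℝ := W ⌊t⌋₊ / t ^ s * ((sInf (counts t (t ^ s)) : ℕ) : ℝ)

/-- the upper limit of `R ((log x) ^ s, x)` -/
noncomputable def U (A : Set ℕ) (s : ℝ) : EReal := limsup (fun x : ℝ => ((R A (Real.log x ^ s) x : ℝ) : EReal)) atTop

/-- the lower limit of `R ((log x) ^ s, x)` -/
noncomputable def L (A : Set ℕ) (s : ℝ) : EReal := liminf (fun x : ℝ => ((R A (Real.log x ^ s) x : ℝ) : EReal)) atTop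

lemma sPlus_eq (s t : ℝ) (ht : 0 ≤ t) : sPlus s t = Pool.Agent.V5helper42.RS.sP s t := by
  unfold sPlus Pool.Agent.V5helper42.RS.sP Pool.Agent.V5helper42.RS.Sp
  rw [← Pool.Agent.V5helper42.RS.counts_eq t (t ^ s) ht (Real.rpow_nonneg ht s)]
  rfl

lemma sMinus_eq (s t : ℝ) (ht : 0 ≤ t) : sMinus s t = Pool.Agent.V5helper42.RS.sM s t := by
  unfold sMinus Pool.Agent.V5helper42.RS.sM Pool.Agent.V5helper42.RS.Sm
  rw [← Pool.Agent.V5helper42.RS.counts_eq t (t ^ s) ht (Real.rpow_nonneg ht s)]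
  rfl

/-- **Theorem.** -/
theorem result : ∃ c : ℝ, 0 < c ∧ ∃ s₁ : ℝ, ∀ {Ω : Type*} [MeasurableSpace Ω] (μ : Measure Ω)
    [IsProbabilityMeasure μ] (a : ℕ → Ω → ℕ), (∀ p, Measurable (a p)) → iIndepFun a μ →
    (∀ p : ℕ, p.Prime → ∀ r < p, μ {ω | a p ω = r} = (p : ℝ≥0∞)⁻¹) →
    ∀ᵐ ω ∂μ,
      (∀ ε : ℝ, 0 < ε → ∃ s₀ : ℝ, ∀ s : ℝ, s₀ ≤ s → ∀ᶠ x : ℝ in atTop,
        |R (model fun p => a p ω) (Real.log x ^ s) x - 1| ≤ ε) ∧
      (∀ s : ℝ, s₁ ≤ s → ∀ᶠ x : ℝ in atTop, ∀ H : ℝ, Real.log x ^ s ≤ H → H ≤ x / 2 →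
        |R (model fun p => a p ω) H x - 1| ≤ Real.exp (-(c * s * Real.log s))) ∧
      (∀ s : ℝ, 0 < s → ∀ᶠ X : ℝ in atTop,
        (∃ x : ℝ, X ≤ x ∧ x ≤ 10 * X ∧
          1 + Real.exp (-(5 * (s + 12) * Real.log (s + 12))) ≤
            R (model fun p => a p ω) (Real.log x ^ s) x) ∧
        (∃ x : ℝ, X ≤ x ∧ x ≤ 10 * X ∧
          R (model fun p => a p ω) (Real.log x ^ s) x ≤
            1 - Real.exp (-(5 * (s + 12) * Real.log (s + 12))))) ∧
      (∀ s : ℝ, 2 < s →
        U (model fun p => a p ω) s = limsup (fun t : ℝ => ((sPlus s t : ℝ) : EReal)) atTop ∧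
        L (model fun p => a p ω) s = liminf (fun t : ℝ => ((sMinus s t : ℝ) : EReal)) atTop ∧
        U (model fun p => a p ω) s ≤ U {p | p.Prime} s ∧ L {p | p.Prime} s ≤ L (model fun p => a p ω) s ∧
        ∀ ε : ℝ, 0 < ε →
          (∀ᶠ x : ℝ in atTop, sMinus s (Real.log x) - ε ≤ R (model fun p => a p ω) (Real.log x ^ s) x ∧
            R (model fun p => a p ω) (Real.log x ^ s) x ≤ sPlus s (Real.log x) + ε) ∧
          (∀ A : Set ℕ, A = model (fun p => a p ω) ∨ A = {p | p.Prime} → ∀ᶠ X : ℝ in atTop,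
            (∃ x : ℝ, X / 3 ≤ x ∧ x ≤ 3 * X ∧ sPlus s (Real.log X) - ε ≤ R A (Real.log x ^ s) x) ∧
            (∃ x : ℝ, X / 3 ≤ x ∧ x ≤ 3 * X ∧ R A (Real.log x ^ s) x ≤ sMinus s (Real.log X) + ε))) := by
  obtain ⟨c, hc, A₀, hmain⟩ := Pool.Agent.V5helper42.RS.main
  refine ⟨c, hc, A₀, ?_⟩
  intro Ω _ μ _ a hm hi hu
  filter_upwards [hmain μ a hm hi hu, Pool.Agent.V5helper42.RS.main2 μ a hm hi hu] with ω hω hω2
  obtain ⟨h1, h2⟩ := hω
  refine ⟨?_, h1, h2, ?_⟩
  · intro ε hε
    have hlog : ∀ᶠ s : ℝ in atTop, Real.exp (-(c * s * Real.log s)) ≤ ε := by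
      have t1 : Tendsto (fun s : ℝ => c * s * Real.log s) atTop atTop :=
        (tendsto_id.const_mul_atTop hc).atTop_mul_atTop₀ Real.tendsto_log_atTop
      have t2 : Tendsto (fun s : ℝ => Real.exp (-(c * s * Real.log s))) atTop (nhds 0) :=
        Real.tendsto_exp_neg_atTop_nhds_zero.comp t1
      exact (t2.eventually (gt_mem_nhds hε)).mono fun s hs => hs.le
    obtain ⟨s₀, hs₀⟩ := eventually_atTop.1 hlog
    refine ⟨max s₀ A₀, fun s hs => ?_⟩
    have hs1 : s₀ ≤ s := (le_max_left _ _).trans hs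
    have hs2 : A₀ ≤ s := (le_max_right _ _).trans hs
    have hsmall : ∀ᶠ x : ℝ in atTop, Real.log x ^ s ≤ x / 2 := by
      have h4 := (isLittleO_log_rpow_rpow_atTop s (show (0 : ℝ) < 1 by norm_num)).bound (show (0 : ℝ) < 1 / 2 by norm_num)
      filter_upwards [h4, eventually_gt_atTop (1 : ℝ)] with x hx hx1
      rw [Real.rpow_one, Real.norm_eq_abs, Real.norm_eq_abs, abs_of_pos (show (0 : ℝ) < x by linarith)] at hx
      have := (le_abs_self _).trans hx
      linarith
    filter_upwards [h1 s hs2, hsmall] with x hx hx2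
    exact (hx (Real.log x ^ s) le_rfl hx2).trans (hs₀ s hs1)
  · intro s hs
    obtain ⟨M, hM⟩ : ∃ M : Set ℕ, M = model fun p => a p ω := ⟨_, rfl⟩
    have key : ∀ ε : ℝ, 0 < ε →
          (∀ᶠ x : ℝ in atTop, sMinus s (Real.log x) - ε ≤ R M (Real.log x ^ s) x ∧
            R M (Real.log x ^ s) x ≤ sPlus s (Real.log x) + ε) ∧
          (∀ᶠ X : ℝ in atTop,
            (∃ x : ℝ, X / 3 ≤ x ∧ x ≤ 3 * X ∧ sPlus s (Real.log X) - ε ≤ R M (Real.log x ^ s) x) ∧
            (∃ x : ℝ, X / 3 ≤ x ∧ x ≤ 3 * X ∧ R M (Real.log x ^ s) x ≤ sMinus s (Real.log X) + ε)) := by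
      intro ε hε
      rw [hM]
      obtain ⟨g1, g2⟩ := hω2 s hs ε hε
      constructor
      · filter_upwards [g1, eventually_ge_atTop (1 : ℝ)] with x hx hx1
        rw [sMinus_eq s _ (Real.log_nonneg hx1), sPlus_eq s _ (Real.log_nonneg hx1)]
        exact hx
      · filter_upwards [g2, eventually_ge_atTop (1 : ℝ)] with x hx hx1
        rw [sMinus_eq s _ (Real.log_nonneg hx1), sPlus_eq s _ (Real.log_nonneg hx1)]
        exact hx
    have keyP : ∀ ε : ℝ, 0 < ε → ∀ᶠ X : ℝ in atTop,
            (∃ x : ℝ, X / 3 ≤ x ∧ x ≤ 3 * X ∧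
              sPlus s (Real.log X) - ε ≤ R {p | p.Prime} (Real.log x ^ s) x) ∧
            (∃ x : ℝ, X / 3 ≤ x ∧ x ≤ 3 * X ∧
              R {p | p.Prime} (Real.log x ^ s) x ≤ sMinus s (Real.log X) + ε) := by
      intro ε hε
      filter_upwards [Pool.Agent.V5helper42.RS.primes_up s hs ε hε, Pool.Agent.V5helper42.RS.primes_lo s hs ε hε,
        eventually_ge_atTop (1 : ℝ)] with x g1 g2 hx1
      rw [sMinus_eq s _ (Real.log_nonneg hx1), sPlus_eq s _ (Real.log_nonneg hx1)]
      exact ⟨g1, g2⟩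
    rw [← hM]
    have hU : U M s = limsup (fun t : ℝ => ((sPlus s t : ℝ) : EReal)) atTop :=
      Pool.Agent.V5helper42.RS.limsup_eq' (fun x => R M (Real.log x ^ s) x) (sPlus s)
        (fun ε hε => (key ε hε).1.mono fun x hx => hx.2) (fun ε hε => (key ε hε).2.mono fun x hx => hx.1)
    have hL : L M s = liminf (fun t : ℝ => ((sMinus s t : ℝ) : EReal)) atTop :=
      Pool.Agent.V5helper42.RS.liminf_eq' (fun x => R M (Real.log x ^ s) x) (sMinus s)
        (fun ε hε => (key ε hε).1.mono fun x hx => hx.1) (fun ε hε => (key ε hε).2.mono fun x hx => hx.2)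
    refine ⟨hU, hL, ?_, ?_, ?_⟩
    · rw [hU]
      exact Pool.Agent.V5helper42.RS.limsup_ge' (fun x => R {p | p.Prime} (Real.log x ^ s) x) (sPlus s)
        (fun ε hε => (keyP ε hε).mono fun x hx => hx.1)
    · rw [hL]
      exact Pool.Agent.V5helper42.RS.liminf_le' (fun x => R {p | p.Prime} (Real.log x ^ s) x) (sMinus s)
        (fun ε hε => (keyP ε hε).mono fun x hx => hx.2)
    · intro ε hε
      refine ⟨(key ε hε).1, ?_⟩
      rintro A (rfl | rfl)
      · exact (key ε hε).2
      · exact keyP ε hε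

end Pool.Agent.Results.MP_b09185_nt.RandomSieveModel
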